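import Pool.Agent.U517.FU.Main

/-!
# Compact subspaces of `C_p(X)` for spaces `X` of countable extent under PFA

The proper forcing axiom implies that, for every `T₁` space `X` all of whose closed discrete
subsets are countable, every compact subspace `K` of `C_p(X)` is Fréchet-Urysohn; moreover the
closures of the countable subsets of `K` are metrizable. The same holds for compact sets of
continuous functions from `X` to a space `M` whose points are separated by countably many
continuous real functions, for example to a separable metrizable space.

Under Martin's axiom and the negation of the continuum hypothesis such a `K` is Fréchet-Urysohn if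
and only if it is countably tight.
-/

namespace Pool.Agent.Results.MP_435463_gt.FrechetUnderPFA

open Set Cardinal Topology
open Pool.Agent.Helper647.FU (PFA MartinAxiom CTight CountableExtent MA1_of_MA)
open Pool.Agent.U517.FU (CountablySeparated)

theorem result :
    (PFA → ∀ (X : Type) [TopologicalSpace X] [T35Space X], CountableExtent X →
      ∀ K : Set (X → ℝ), IsCompact K → (∀ f ∈ K, Continuous f) → FrechetUrysohnSpace K) ∧
    (PFA → ∀ (X M : Type) [TopologicalSpace X] [T1Space X] [TopologicalSpace M],
      CountableExtent X → CountablySeparated M →
      ∀ K : Set (X → M), IsCompact K → (∀ f ∈ K, Continuous f) →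
        FrechetUrysohnSpace K ∧ ∀ C ⊆ K, C.Countable →
          TopologicalSpace.MetrizableSpace (closure C)) ∧
    (MartinAxiom → (ℵ₁ : Cardinal.{0}) < 𝔠 →
      ∀ (X M : Type) [TopologicalSpace X] [T1Space X] [TopologicalSpace M],
      CountableExtent X → CountablySeparated M →
      ∀ K : Set (X → M), IsCompact K → (∀ f ∈ K, Continuous f) →
        (FrechetUrysohnSpace K ↔ CTight K)) ∧
    ∀ (M : Type) [TopologicalSpace M] [TopologicalSpace.MetrizableSpace M]
      [TopologicalSpace.SeparableSpace M], CountablySeparated M := by
  refine ⟨fun h X _ _ hX K hK hKc => ?_, fun h X M _ _ _ hX hM K hK hKc => ?_,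
    fun h hc X M _ _ _ hX hM K hK hKc => ?_, fun M _ _ _ => ?_⟩
  · exact (Pool.Agent.U517.FU.main h hX (Pool.Agent.U517.FU.separated_of_metrizable ℝ)
      K hK hKc).1
  · exact Pool.Agent.U517.FU.main h hX hM K hK hKc
  · exact Pool.Agent.U517.FU.main_ma (MA1_of_MA h hc) hX hM K hK hKc
  · exact Pool.Agent.U517.FU.separated_of_metrizable M

end Pool.Agent.Results.MP_435463_gt.FrechetUnderPFA
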